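import Mathlib
import Pool.Agent.H.MP_3e1352_an.E

open Filter Topology Set

namespace Pool.Agent.Results.MP_3e1352_an.Yes

open Pool.Agent.H Pool.Agent.H.MP_3e1352_an

theorem result :
    ∃ (X : Type) (_ : MetricSpace X) (_ : CompactSpace X) (_ : Nonempty X) (T S : X ≃ₜ X),
      (∀ x : X, Dense (range fun n : ℤ => (T ^ n) x)) ∧
      (∀ x : X, Dense (range fun n : ℤ => (S ^ n) x)) ∧
      ∀ x : X, ¬ ∃ n : ℕ → ℤ, Tendsto n atTop atTop ∧
        Tendsto (fun i => (T ^ n i) x) atTop (𝓝 x) ∧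
        Tendsto (fun i => (T ^ (2 * n i)) x) atTop (𝓝 x) ∧
        Tendsto (fun i => (S ^ (n i ^ 2)) x) atTop (𝓝 x) := by
  obtain ⟨Y, y1, y2, T, y3, y4, y5⟩ := sys
  choose σ hσ using MP_c19a8f_an.fr_poly (Polynomial.X ^ 2) (by simp)
  have f := MP_c19a8f_an.fin_poly (Polynomial.X ^ 2) (by simp)
  simp only [Polynomial.eval_pow, Polynomial.eval_X] at hσ f
  obtain ⟨Φ, F, hF, h⟩ := main _ σ hσ f y1 y2 y5
  have : CompactSpace Y := isCompact_iff_compactSpace.1 y1.isCompact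
  refine ⟨Y, TopologicalSpace.metrizableSpaceMetric _, this, y2.to_subtype, T,
    Φ.trans ((MP_c19a8f_an.T σ).trans Φ.symm), y4, fun x => ?_, ?_⟩
  · have := Φ.symm.surjective.denseRange.dense_image Φ.symm.continuous (MP_c19a8f_an.dense (Φ x))
    rw [← range_comp] at this
    exact this.mono (by
      rintro _ ⟨n, rfl⟩
      exact ⟨n, by simp only [Function.comp, ← MP_c19a8f_an.conj, Homeomorph.symm_apply_apply]⟩)
  · rintro x ⟨n, h1, h2, h2', h3⟩
    have h5 : Tendsto (fun i => (MP_c19a8f_an.T σ ^ (n i ^ 2)) (Φ x)) atTop (𝓝 (Φ x)) :=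
      ((Φ.continuous.tendsto x).comp h3).congr fun i => MP_c19a8f_an.conj _ _ _ _
    obtain ⟨M, hM⟩ := hF.bddAbove
    obtain ⟨i, ⟨a, a'⟩, b, c, d⟩ := ((((tendsto_subtype_rng.1 h2).eventually (evw x.1 0)).and
      ((tendsto_subtype_rng.1 h2').eventually (evw x.1 0))).and
      ((MP_c19a8f_an.ret (fun m => m ^ 2) n (Φ x) h5).and ((h1.eventually_gt_atTop M).and
        (h1.eventually_ge_atTop 0)))).exists
    have a1 := (a 0 (by simp)).trans (a' 0 (by simp)).symm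
    rw [y3, y3, zero_add, zero_add] at a1
    exact absurd (hM (h x ⟨⟨d, a1⟩, b⟩)) (not_le.2 c)

end Pool.Agent.Results.MP_3e1352_an.Yes
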